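import Pool.Agent.BED.Stmts

/-!
# Squad BED, row PSK: products of invariant functions
-/

namespace Pool.Agent.BED.H93

open Set Filter Topology MeasureTheory
open scoped InnerProductSpace ENNReal
open Pool.Agent.BE01 Pool.Agent.BED

noncomputable section

theorem mp_dom {d : ℕ} {Ω : Set (En d)} (hΩ : Dom Ω) (g : En d ≃ₗᵢ[ℝ] En d)
    (hg : ∀ x, g x ∈ Ω ↔ x ∈ Ω) : MeasurePreserving g (mu Ω) (mu Ω) := by
  have h1 : MeasurePreserving g (volume : Measure (En d)) volume := g.measurePreserving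
  have h2 := h1.restrict_preimage hΩ.1.measurableSet
  have h3 : g ⁻¹' Ω = Ω := by
    ext y
    exact hg y
  rw [h3] at h2
  exact h2

/-- row PSK -/
theorem psk : PskStmt := by
  intro d Ω G X _ _ A K hΩ hG hP hK hKi
  obtain ⟨h1, h2, h3, h4, h5, h6, h7⟩ := hP
  have hq : ∀ g ∈ G, ∀ (f f' : En d → ℝ), f =ᵐ[mu Ω] f' →
      (fun x => f (g x)) =ᵐ[mu Ω] fun x => f' (g x) := by
    intro g hg f f' hf
    exact (mp_dom hΩ g (hG g hg)).quasiMeasurePreserving.ae_eq_comp hf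
  refine ⟨hK, ?_, ?_, ?_⟩
  · rw [hKi]
    intro g hg
    filter_upwards [hq g hg _ _ h4, h4] with x hx hx2
    rw [hx, hx2]
  · intro x h hx hh
    rw [hKi] at hx hh ⊢
    intro g hg
    filter_upwards [hq g hg _ _ (h6 x h), h6 x h, hx g hg, hh g hg] with z e1 e2 e3 e4
    rw [e1, e2, e3, e4]
  · intro y y' hy hy'
    rw [hKi] at hy hy' ⊢
    intro g hg
    filter_upwards [hq g hg _ _ (h7 y y'), h7 y y', hy g hg, hy' g hg, h5 y, h5 y',
      hq g hg _ _ (h5 y), hq g hg _ _ (h5 y')] with z e1 e2 e3 e4 e5 e6 e7 e8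
    rw [e1, e2, ← e7, ← e8, e3, e4, e5, e6]

end

end Pool.Agent.BED.H93
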