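import Pool.Agent.Helper93_BED.PHR
import Pool.Agent.Helper93_BED.PSK
import Pool.Agent.Helper54_BED.CDI
import Pool.Agent.Helper4_BED.CSP
import Pool.Agent.Helper52_BED.AL2
import Pool.Agent.Helper14_BED.WV3
import Pool.Agent.Helper21_BED.KSC
import Pool.Agent.Helper46_BED.FRK
import Pool.Agent.Helper75_BED.KGA
import Pool.Agent.Helper89_BED.SYG
import Pool.Agent.Helper84_BED.SGW
import Pool.Agent.Helper67_BED.KIS
import Pool.Agent.Helper81_BED.FN3
import Pool.Agent.Helper24_BED.JTA
import Pool.Agent.Helper65_BED.JDE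
import Pool.Agent.Helper50_BED.JLB
import Pool.Agent.Helper15_BED.JZE
import Pool.Agent.Helper62_BED.JNU
import Pool.Agent.Helper12_BED.CPV
import Pool.Agent.Helper19_BED.ORD
import Pool.Agent.Helper6_BED.RDE
import Pool.Agent.Helper76_BED.SPD
import Pool.Agent.Helper27_BED.DSC
import Pool.Agent.Helper70_BE01.All
import Pool.Agent.Helper70_BE01.Conv

/-!
# Squad BED (MP_be01ff_an): all modules together. The explicit theorem in a class of symmetric
functions, and the disc for `α = 2, 4, 6`.
-/

namespace Pool.Agent.BED.Fin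

open Pool.Agent Pool.Agent.BED
open Set Filter Topology MeasureTheory
open scoped InnerProductSpace ENNReal

noncomputable section

theorem csp : CspStmt := H4.csp H54.cdi

theorem wv3 : Wv3Stmt := H14.wv3 H52.al2 csp

theorem ksc : KscStmt := H21.ksc Helper70BE01All.scl

theorem kis : KisStmt := H67.kis H89.syg H84.sgw

/-- The theorem with an explicit order in a class of symmetric functions. -/
theorem fn3 : Fn3Stmt := H81.fn3 wv3 H46.frk ksc H75.kga H93.psk kis

theorem jlb : JlbStmt := H50.jlb H24.jta

theorem jze : JzeStmt := H15.jze H24.jta H65.jde jlb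

theorem jnu : JnuStmt := H62.jnu H24.jta H65.jde

theorem ord : OrdStmt := H19.ord jlb

theorem spd : SpdStmt := H76.spd H6.rde H24.jta H65.jde

/-- The disc, `α = 2, 4, 6`. -/
theorem dsc : DscStmt := H27.dsc fn3 jze jnu H12.cpv ord spd H93.phr

end

end Pool.Agent.BED.Fin
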