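import Pool.Agent.BED.Stmts
import Pool.Agent.Helper93_BEO.Fin

/-!
# Squad BED, row PHR: the radial eigenfunction of the disc
-/

namespace Pool.Agent.BED.H93

open Set Filter Topology MeasureTheory
open scoped InnerProductSpace ENNReal
open Pool.Agent.BE01 Pool.Agent.BEO Pool.Agent.BEO.H93P
open Pool.Agent.BED

noncomputable section

/-! ## The coefficients -/

theorem bj_zero : bj 0 = 1 := by
  unfold bj
  simp

theorem bj_succ (k : ℕ) : 4 * ((k : ℝ) + 1) ^ 2 * bj (k + 1) = - bj k := by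
  unfold bj
  have h1 : (k.factorial : ℝ) ≠ 0 := by positivity
  have h2 : ((k : ℝ) + 1) ≠ 0 := by positivity
  rw [Nat.factorial_succ, pow_succ, pow_succ]
  push_cast
  field_simp
  ring

theorem bj_abs (k : ℕ) : |bj k| = 1 / (4 ^ k * (k.factorial : ℝ) ^ 2) := by
  unfold bj
  rw [abs_div, abs_pow, abs_neg, abs_one, one_pow, abs_of_nonneg (by positivity)]

theorem bj_sum (x : ℝ) : Summable fun k : ℕ => |bj k| * x ^ (2 * k) := by
  have h1 : Summable fun k : ℕ => (x ^ 2) ^ k / (k.factorial : ℝ) := Real.summable_pow_div_factorial _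
  refine Summable.of_nonneg_of_le (fun k => ?_) (fun k => ?_) h1
  · rw [pow_mul]
    positivity
  · rw [bj_abs, pow_mul, one_div, div_eq_inv_mul]
    have hf : (1 : ℝ) ≤ k.factorial := by exact_mod_cast Nat.one_le_iff_ne_zero.2 (Nat.factorial_ne_zero k)
    have h4 : (1 : ℝ) ≤ 4 ^ k := one_le_pow₀ (by norm_num)
    refine mul_le_mul_of_nonneg_right ?_ (by positivity)
    refine inv_anti₀ (by positivity) ?_
    nlinarith [mul_le_mul h4 (show (k.factorial : ℝ) ≤ (k.factorial : ℝ) ^ 2 by nlinarith) (by positivity) (by positivity)]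

/-! ## Polynomials -/

/-- `Σ_{k<N} b_k |y|^{2k}`. -/
def pR (m : ℝ) (N : ℕ) : Pl 2 :=
  ∑ k ∈ Finset.range N, MvPolynomial.C (bj k * m ^ k) * (rho 2 ^ k * 1)

/-- `Σ_{k≤K} b_k (|y|^{2k} - R^{2k})`. -/
def qR (R m : ℝ) (K : ℕ) : Pl 2 :=
  pR m (K + 1) - MvPolynomial.C (∑ k ∈ Finset.range (K + 1), bj k * m ^ k * R ^ (2 * k)) * 1

theorem lap_one : lap (1 : Pl 2) = 0 := by
  unfold lap
  simp

theorem lap_pR (LPF : LpoStmt) (m : ℝ) (K : ℕ) :
    lap (pR m (K + 1)) = - (MvPolynomial.C m * pR m K) := by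
  unfold pR
  rw [lap_sum, Finset.sum_range_succ', Finset.mul_sum, ← Finset.sum_neg_distrib]
  have h0 : lap (MvPolynomial.C (bj 0 * m ^ 0) * (rho 2 ^ 0 * (1 : Pl 2))) = 0 := by
    rw [pow_zero (rho 2), one_mul, lap_C_mul, lap_one, mul_zero]
  rw [h0, add_zero]
  refine Finset.sum_congr rfl (fun k _ => ?_)
  have h1 := bj_succ k
  have h2 : bj (k + 1) * m ^ (k + 1) *
      (2 * ((k : ℝ) + 1) * (2 * ((k : ℝ) + 1) + 2 * (0 : ℕ) + (2 : ℕ) - 2)) =
      - (m * (bj k * m ^ k)) := by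
    rw [pow_succ]
    push_cast
    linear_combination (m ^ k * m) * h1
  rw [lap_C_mul, LPF 2 0 k _ (MvPolynomial.isHomogeneous_one _ _) lap_one, ← mul_assoc,
    ← MvPolynomial.C_mul, h2, MvPolynomial.C_neg, MvPolynomial.C_mul]
  ring

theorem lap_qR (LPF : LpoStmt) (R m : ℝ) (K : ℕ) :
    lap (qR R m K) = - (MvPolynomial.C m * pR m K) := by
  have e : qR R m K = pR m (K + 1) + MvPolynomial.C (-(∑ k ∈ Finset.range (K + 1),
      bj k * m ^ k * R ^ (2 * k))) * 1 := by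
    unfold qR
    rw [MvPolynomial.C_neg]
    ring
  rw [e, lap_add, lap_C_mul, lap_one, mul_zero, add_zero, lap_pR LPF]

/-- Partial sums of `J_0`. -/
def SR (N : ℕ) (z : ℝ) : ℝ := ∑ k ∈ Finset.range N, bj k * z ^ (2 * k)

theorem ev_one (y : En 2) : ev (1 : Pl 2) y = 1 := by
  unfold ev
  rw [map_one]

theorem ev_pR (EVP : EvoStmt) (R x : ℝ) (N : ℕ) (y : En 2) :
    ev (pR ((x / R) ^ 2) N) y = SR N (x * ‖y‖ / R) := by
  obtain ⟨_, _, _, hm, hC, hrho, hX, _⟩ := EVP 2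
  unfold pR SR
  rw [ev_sum]
  refine Finset.sum_congr rfl (fun k _ => ?_)
  rw [hm, hC, hm, ev_pow, hrho, ev_one]
  have : (x * ‖y‖ / R) ^ (2 * k) = ((x / R) ^ 2) ^ k * (‖y‖ ^ 2) ^ k := by
    rw [← pow_mul, ← pow_mul, ← mul_pow]
    congr 1
    ring
  rw [this]
  ring

theorem ev_qR (EVP : EvoStmt) {R x : ℝ} (hR : 0 < R) (K : ℕ) (y : En 2) :
    ev (qR R ((x / R) ^ 2) K) y = SR (K + 1) (x * ‖y‖ / R) - SR (K + 1) x := by
  have hsub : ∀ P Q : Pl 2, ev (P - Q) y = ev P y - ev Q y := by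
    intro P Q
    unfold ev
    rw [map_sub]
  unfold qR
  rw [hsub, ev_pR EVP R x]
  obtain ⟨_, _, _, hm, hC, hrho, hX, _⟩ := EVP 2
  rw [hm, hC, ev_one]
  have : ∑ k ∈ Finset.range (K + 1), bj k * ((x / R) ^ 2) ^ k * R ^ (2 * k) = SR (K + 1) x := by
    unfold SR
    refine Finset.sum_congr rfl (fun k _ => ?_)
    have h2 : ((x / R) ^ 2) ^ k * R ^ (2 * k) = x ^ (2 * k) := by
      rw [← pow_mul, ← mul_pow]
      congr 1
      field_simp
    rw [mul_assoc, h2]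
  rw [this]
  ring

/-! ## Convergence -/

theorem SR_unif (x : ℝ) (hx : 0 < x) :
    TendstoUniformlyOn (fun N z => SR N z) j0 atTop (Icc 0 x) := by
  refine tendstoUniformlyOn_tsum_nat (bj_sum x) (fun k z hz => ?_)
  rw [Real.norm_eq_abs, abs_mul, abs_pow]
  refine mul_le_mul_of_nonneg_left ?_ (abs_nonneg _)
  refine pow_le_pow_left₀ (abs_nonneg _) ?_ _
  rw [abs_of_nonneg hz.1]
  exact hz.2

/-- The eigenfunction. -/
def FR (R x : ℝ) (y : En 2) : ℝ := j0 (x * ‖y‖ / R)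

theorem unif_pR (EVP : EvoStmt) {R x : ℝ} (hR : 0 < R) (hx : 0 < x) :
    TendstoUniformlyOn (fun N y => ev (pR ((x / R) ^ 2) N) y) (FR R x) atTop (BB 2 R) := by
  rw [Metric.tendstoUniformlyOn_iff]
  intro ε hε
  filter_upwards [Metric.tendstoUniformlyOn_iff.1 (SR_unif x hx) ε hε] with N hN y hy
  have h1 := hN _ (arg_mem hR hx hy)
  rw [ev_pR EVP R x, FR]
  exact h1

theorem unif_qR (EVP : EvoStmt) {R x : ℝ} (hR : 0 < R) (hx : 0 < x) (h0 : j0 x = 0) :
    TendstoUniformlyOn (fun N y => ev (qR R ((x / R) ^ 2) N) y) (FR R x) atTop (BB 2 R) := by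
  rw [Metric.tendstoUniformlyOn_iff]
  intro ε hε
  have h3 := Metric.tendstoUniformlyOn_iff.1 (SR_unif x hx) (ε / 2) (by positivity)
  have h4 := (tendsto_add_atTop_nat 1).eventually h3
  filter_upwards [h4] with N hN y hy
  have h1 := hN _ (arg_mem hR hx hy)
  have h5 := hN x ⟨hx.le, le_rfl⟩
  rw [h0] at h5
  rw [Real.dist_eq] at h1 h5 ⊢
  rw [ev_qR EVP hR, FR]
  have e : j0 (x * ‖y‖ / R) - (SR (N + 1) (x * ‖y‖ / R) - SR (N + 1) x) =
      (j0 (x * ‖y‖ / R) - SR (N + 1) (x * ‖y‖ / R)) - (0 - SR (N + 1) x) := by ring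
  rw [e]
  refine lt_of_le_of_lt (abs_sub _ _) ?_
  linarith

theorem FR_cont {R x : ℝ} (hR : 0 < R) (hx : 0 < x) : ContinuousOn (FR R x) (BB 2 R) := by
  have h1 : ContinuousOn j0 (Icc 0 x) := by
    refine (SR_unif x hx).continuousOn (Eventually.frequently (Eventually.of_forall fun N => ?_))
    unfold SR
    fun_prop
  exact h1.comp (by fun_prop) (fun y hy => arg_mem hR hx hy)

theorem q_boundR (EVP : EvoStmt) {R x : ℝ} (hR : 0 < R) (hx : 0 < x)
    (K : ℕ) : ∃ C : ℝ, ∀ y ∈ BB 2 R, |ev (qR R ((x / R) ^ 2) K) y| ≤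
      C * (R ^ 2 - ‖y‖ ^ 2) := by
  have hterm : ∀ k : ℕ, ∃ c : ℝ, 0 ≤ c ∧ ∀ s : ℝ, 0 ≤ s → s ≤ R ^ 2 →
      |bj k * (((x / R) ^ 2) ^ k * s ^ k) - bj k * x ^ (2 * k)| ≤ c * (R ^ 2 - s) := by
    intro k
    refine ⟨|bj k| * (((x / R) ^ 2) ^ k * (k * (R ^ 2) ^ (k - 1))), by positivity,
      fun s hs0 hsR => ?_⟩
    have e1 : x ^ (2 * k) = ((x / R) ^ 2) ^ k * (R ^ 2) ^ k := by
      rw [← pow_mul, ← pow_mul, ← mul_pow]
      congr 1
      field_simp
    have h2 : (R ^ 2) ^ k - s ^ k ≤ k * (R ^ 2) ^ (k - 1) * (R ^ 2 - s) := by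
      have := (Commute.all (R ^ 2) s).geom_sum₂_mul k
      rw [← this]
      refine mul_le_mul_of_nonneg_right ?_ (by linarith)
      have h3 : ∀ i ∈ Finset.range k, (R ^ 2) ^ i * s ^ (k - 1 - i) ≤ (R ^ 2) ^ (k - 1) := by
        intro i hi
        rw [Finset.mem_range] at hi
        have h4 : (R ^ 2) ^ (k - 1) = (R ^ 2) ^ i * (R ^ 2) ^ (k - 1 - i) := by
          rw [← pow_add]
          congr 1
          omega
        rw [h4]
        exact mul_le_mul_of_nonneg_left (pow_le_pow_left₀ hs0 hsR _) (by positivity)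
      refine (Finset.sum_le_card_nsmul _ _ _ h3).trans ?_
      rw [Finset.card_range, nsmul_eq_mul]
    have h5 : s ^ k ≤ (R ^ 2) ^ k := pow_le_pow_left₀ hs0 hsR _
    rw [e1, ← mul_sub, ← mul_sub, abs_mul, abs_mul, abs_sub_comm,
      abs_of_nonneg (show 0 ≤ (R ^ 2) ^ k - s ^ k by linarith),
      abs_of_nonneg (show 0 ≤ ((x / R) ^ 2) ^ k by positivity)]
    calc |bj k| * (((x / R) ^ 2) ^ k * ((R ^ 2) ^ k - s ^ k))
        ≤ |bj k| * (((x / R) ^ 2) ^ k * (k * (R ^ 2) ^ (k - 1) * (R ^ 2 - s))) := by gcongr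
      _ = _ := by ring
  choose c hc0 hc using hterm
  refine ⟨∑ k ∈ Finset.range (K + 1), c k, fun y hy => ?_⟩
  have hy2 : ‖y‖ ^ 2 ≤ R ^ 2 := pow_le_pow_left₀ (norm_nonneg _) (mem_norm hy).le 2
  rw [ev_qR EVP hR]
  unfold SR
  rw [← Finset.sum_sub_distrib, Finset.sum_mul]
  refine (Finset.abs_sum_le_sum_abs _ _).trans (Finset.sum_le_sum fun k _ => ?_)
  have h1 := hc k (‖y‖ ^ 2) (by positivity) hy2
  have e : (x * ‖y‖ / R) ^ (2 * k) = ((x / R) ^ 2) ^ k * (‖y‖ ^ 2) ^ k := by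
    rw [← pow_mul, ← pow_mul, ← mul_pow]
    congr 1
    ring
  rw [e]
  exact h1

theorem phr0 (LPF : LpoStmt) (EVP : EvoStmt) (COF : CooStmt)
    (IBP : IboStmt) (R x : ℝ) (hR : 0 < R) (hx : 0 < x) (h0 : j0 x = 0) :
    ∃ φ : Lp ℝ 2 (mu (BB 2 R)), (φ =ᵐ[mu (BB 2 R)] fun y => j0 (x * ‖y‖ / R)) ∧ φ ≠ 0 ∧
      IsEig (BB 2 R) ((x / R) ^ 2) φ := by
  have hd : 1 ≤ 2 := by norm_num
  set m : ℝ := (x / R) ^ 2 with hm
  have hm0 : 0 < m := by positivity
  have hdom : Dom (BB 2 R) := hb_dom hR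
  -- the functions
  have hex : ∀ K : ℕ, ∃ (f : Lp ℝ 2 (mu (BB 2 R))) (G : Lp (En 2) 2 (mu (BB 2 R))),
      (f, G) ∈ H10 (BB 2 R) ∧ f =ᵐ[mu (BB 2 R)] ev (qR R m K) ∧
        G =ᵐ[mu (BB 2 R)] gradient (ev (qR R m K)) := by
    intro K
    obtain ⟨C, hC⟩ := q_boundR EVP hR hx K
    exact COF 2 R C _ hd hR ((EVP 2).1 _) hC
  choose f G hfG hf hG using hex
  have hpm : ∀ N, MemLp (ev (pR m N)) 2 (mu (BB 2 R)) := by
    intro N
    obtain ⟨C, hC⟩ := (EVP 2).2.2.2.2.2.2.2 (pR m N) R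
    exact memLp_of ((EVP 2).1 _).continuous.aestronglyMeasurable (fun y hy => hC y (mem_norm hy).le)
  set p : ℕ → Lp ℝ 2 (mu (BB 2 R)) := fun N => (hpm N).toLp (ev (pR m N)) with hp
  have hpe : ∀ N, p N =ᵐ[mu (BB 2 R)] ev (pR m N) := fun N => (hpm N).coeFn_toLp
  have hFm : MemLp (FR R x) 2 (mu (BB 2 R)) := by
    have h1 : AEStronglyMeasurable (FR R x) (mu (BB 2 R)) :=
      (FR_cont hR hx).aestronglyMeasurable (hb_open R).measurableSet
    obtain ⟨N, hN⟩ := (Metric.tendstoUniformlyOn_iff.1 (unif_pR EVP hR hx) 1 one_pos).exists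
    obtain ⟨C, hC⟩ := (EVP 2).2.2.2.2.2.2.2 (pR m N) R
    refine memLp_of h1 (C := C + 1) (fun y hy => ?_)
    have h2 := hN y hy
    rw [Real.dist_eq] at h2
    have h3 := hC y (mem_norm hy).le
    have h4 : FR R x y = (FR R x y - ev (pR m N) y) + ev (pR m N) y := by ring
    rw [h4]
    refine (abs_add_le _ _).trans ?_
    linarith
  set φ : Lp ℝ 2 (mu (BB 2 R)) := hFm.toLp (FR R x) with hφ
  have hφe : φ =ᵐ[mu (BB 2 R)] FR R x := hFm.coeFn_toLp
  have hfl : Tendsto f atTop (𝓝 φ) := tendsto_lp f φ _ _ hf hφe (unif_qR EVP hR hx h0)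
  have hpl : Tendsto p atTop (𝓝 φ) := tendsto_lp p φ _ _ hpe hφe (unif_pR EVP hR hx)
  -- the gradients
  have hinner : ∀ (g : Lp ℝ 2 (mu (BB 2 R))) (N : ℕ),
      ∫ y, g y * ev (pR m N) y ∂(mu (BB 2 R)) = ⟪g, p N⟫_ℝ := by
    intro g N
    rw [L2.inner_def]
    refine integral_congr_ae ?_
    filter_upwards [hpe N] with y hy
    rw [hy]
    simp only [RCLike.inner_apply, conj_trivial]
    ring
  have hibp : ∀ (u : Lp ℝ 2 (mu (BB 2 R))) (F : Lp (En 2) 2 (mu (BB 2 R))), (u, F) ∈ H10 (BB 2 R) →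
      ∀ K, ⟪F, G K⟫_ℝ = m * ⟪u, p K⟫_ℝ := by
    intro u F hu K
    have h1 := IBP 2 (BB 2 R) u F (qR R m K) hdom hu
    have h2 : ∫ y, ⟪F y, gradient (ev (qR R m K)) y⟫_ℝ ∂(mu (BB 2 R)) = ⟪F, G K⟫_ℝ := by
      rw [L2.inner_def]
      refine integral_congr_ae ?_
      filter_upwards [hG K] with y hy
      rw [hy]
    rw [h2] at h1
    rw [h1, ← hinner u K, lap_qR LPF R m K, ← integral_neg, ← integral_const_mul]
    refine integral_congr_ae (Eventually.of_forall fun y => ?_)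
    have h3 : ev (- (MvPolynomial.C m * pR m K)) y = - (m * ev (pR m K) y) := by
      unfold ev
      rw [map_neg, map_mul, MvPolynomial.eval_C]
    simp only [h3]
    ring
  have hcau : CauchySeq G := by
    have hfc := hfl.cauchySeq
    have hpc := hpl.cauchySeq
    have hsq : ∀ K J : ℕ, ‖G K - G J‖ ^ 2 ≤ m * (‖f K - f J‖ * ‖p K - p J‖) := by
      intro K J
      have e : ‖G K - G J‖ ^ 2 = m * ⟪f K - f J, p K - p J⟫_ℝ := by
        rw [← real_inner_self_eq_norm_sq, inner_sub_left, inner_sub_right, inner_sub_right,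
          hibp _ _ (hfG K) K, hibp _ _ (hfG K) J, hibp _ _ (hfG J) K, hibp _ _ (hfG J) J,
          inner_sub_left, inner_sub_right, inner_sub_right]
        ring
      rw [e]
      exact mul_le_mul_of_nonneg_left (real_inner_le_norm _ _) hm0.le
    rw [Metric.cauchySeq_iff] at hfc hpc ⊢
    intro ε hε
    obtain ⟨N1, hN1⟩ := hfc (ε ^ 2 / m) (by positivity)
    obtain ⟨N2, hN2⟩ := hpc 1 one_pos
    refine ⟨max N1 N2, fun K hK J hJ => ?_⟩
    have h1 := hN1 K (le_trans (le_max_left _ _) hK) J (le_trans (le_max_left _ _) hJ)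
    have h2 := hN2 K (le_trans (le_max_right _ _) hK) J (le_trans (le_max_right _ _) hJ)
    rw [dist_eq_norm] at h1 h2 ⊢
    have h3 := hsq K J
    have h4 : m * (‖f K - f J‖ * ‖p K - p J‖) < ε ^ 2 := by
      have h5 : ‖f K - f J‖ * ‖p K - p J‖ ≤ ‖f K - f J‖ * 1 :=
        mul_le_mul_of_nonneg_left h2.le (norm_nonneg _)
      have h6 : m * ‖f K - f J‖ < ε ^ 2 := by
        rw [lt_div_iff₀ hm0] at h1
        linarith
      nlinarith
    exact lt_of_pow_lt_pow_left₀ 2 hε.le (lt_of_le_of_lt h3 h4)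
  obtain ⟨Gl, hGl⟩ := cauchySeq_tendsto_of_complete hcau
  refine ⟨φ, hφe, ?_, Gl, ?_, ?_⟩
  · -- nonzero
    intro hz
    have h1 : FR R x =ᵐ[volume.restrict (BB 2 R)] fun _ => 0 := by
      have h2 : φ =ᵐ[mu (BB 2 R)] 0 := by
        rw [hz]
        exact Lp.coeFn_zero _ _ _
      exact hφe.symm.trans h2
    have h2 := Measure.eqOn_open_of_ae_eq h1 (hb_open R) (FR_cont hR hx) continuousOn_const
    have h4 := h2 (Metric.mem_ball_self hR : (0 : En 2) ∈ BB 2 R)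
    simp only [FR] at h4
    rw [norm_zero, mul_zero, zero_div] at h4
    have h8 : j0 0 = 1 := by
      unfold j0
      rw [tsum_eq_single 0]
      · rw [bj_zero]
        simp
      · intro k hk
        rw [zero_pow (by omega), mul_zero]
    rw [h8] at h4
    exact one_ne_zero h4
  · exact isClosed_closure.mem_of_tendsto (hfl.prodMk_nhds hGl)
      (Eventually.of_forall fun K => hfG K)
  · -- the equation
    intro ψ hψ
    have hψ1 : MemLp ψ 2 (mu (BB 2 R)) :=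
      (hψ.1.continuous.memLp_of_hasCompactSupport (p := 2) (μ := volume) hψ.2.1).restrict _
    have hψ2 : MemLp (gradient ψ) 2 (mu (BB 2 R)) := by
      have h1 : Continuous (fderiv ℝ ψ) := hψ.1.continuous_fderiv (by simp)
      have h3 : HasCompactSupport (fderiv ℝ ψ) := hψ.2.1.fderiv ℝ
      have h2 : gradient ψ =
        fun x => (InnerProductSpace.toDual ℝ (En 2)).symm (fderiv ℝ ψ x) := rfl
      have hc : Continuous (gradient ψ) := by
        rw [h2]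
        exact (InnerProductSpace.toDual ℝ (En 2)).symm.continuous.comp h1
      have hs : HasCompactSupport (gradient ψ) := by
        rw [h2]
        exact h3.comp_left (g := fun y => (InnerProductSpace.toDual ℝ (En 2)).symm y) (by simp)
      exact (hc.memLp_of_hasCompactSupport (p := 2) (μ := volume) hs).restrict _
    set a : Lp ℝ 2 (mu (BB 2 R)) := hψ1.toLp ψ with ha
    set b : Lp (En 2) 2 (mu (BB 2 R)) := hψ2.toLp (gradient ψ) with hb
    have hab : (a, b) ∈ H10 (BB 2 R) := subset_closure ⟨ψ, hψ, hψ1.coeFn_toLp, hψ2.coeFn_toLp⟩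
    have h1 : ∀ K, ⟪b, G K⟫_ℝ = m * ⟪a, p K⟫_ℝ := hibp a b hab
    have h2 : ⟪b, Gl⟫_ℝ = m * ⟪a, φ⟫_ℝ := by
      have l1 : Tendsto (fun K => ⟪b, G K⟫_ℝ) atTop (𝓝 ⟪b, Gl⟫_ℝ) :=
        tendsto_const_nhds.inner hGl
      have l2 : Tendsto (fun K => m * ⟪a, p K⟫_ℝ) atTop (𝓝 (m * ⟪a, φ⟫_ℝ)) :=
        (tendsto_const_nhds.inner hpl).const_mul m
      refine tendsto_nhds_unique l1 (l2.congr (fun K => (h1 K).symm))
    have e1 : ∫ y, ⟪Gl y, gradient ψ y⟫_ℝ ∂(mu (BB 2 R)) = ⟪b, Gl⟫_ℝ := by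
      rw [L2.inner_def]
      refine integral_congr_ae ?_
      filter_upwards [hψ2.coeFn_toLp] with y hy
      rw [hb, hy, real_inner_comm]
    have e2 : ∫ y, φ y * ψ y ∂(mu (BB 2 R)) = ⟪a, φ⟫_ℝ := by
      rw [L2.inner_def]
      refine integral_congr_ae ?_
      filter_upwards [hψ1.coeFn_toLp] with y hy
      rw [ha, hy]
      simp only [RCLike.inner_apply, conj_trivial]
    rw [e1, e2, h2]

/-- A linear isometry preserves the measure on a ball. -/
theorem mp_iso (g : En 2 ≃ₗᵢ[ℝ] En 2) (R : ℝ) : MeasurePreserving g (mu (BB 2 R)) (mu (BB 2 R)) := by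
  have h1 : MeasurePreserving g (volume : Measure (En 2)) volume := g.measurePreserving
  have h2 := h1.restrict_preimage (hb_open (d := 2) R).measurableSet
  have h3 : g ⁻¹' (BB 2 R) = BB 2 R := by
    ext y
    rw [mem_preimage, BB, mem_ball_zero_iff, mem_ball_zero_iff, g.norm_map]
  rw [h3] at h2
  exact h2

/-- row PHR -/
theorem phr : PhrStmt := by
  intro R x hR hx h0
  obtain ⟨φ, h1, h2, h3⟩ := phr0 Pool.Agent.BEO.Fin.lpo Pool.Agent.BEO.Fin.evo
    Pool.Agent.BEO.H95.coo Pool.Agent.BEO.Fin.ibo R x hR hx h0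
  refine ⟨φ, h1, h2, ?_, h3⟩
  intro g _
  have h4 := (mp_iso g R).quasiMeasurePreserving.ae_eq_comp h1
  refine (h4.trans ?_).trans h1.symm
  refine Eventually.of_forall (fun y => ?_)
  show j0 (x * ‖g y‖ / R) = j0 (x * ‖y‖ / R)
  rw [g.norm_map]

end

end Pool.Agent.BED.H93
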